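import Pool.Agent.TH464.PO.ShiftInst
import Pool.Agent.TH464.PO.MomLaw

set_option autoImplicit false

/-!
# Almost prime triples `m`, `m + a`, `m + b`: all moments of the counts in several windows,
uniformly

Let `m` be good if `m`, `m + a` and `m + b` all have at most `r` prime factors, all larger than `X
^ (1 / r)`. Let `V` be the product of `1 - ρ(p) / p` over the primes `p ≤ X ^ (1 / r)`. Given `θ >
0`, exponents `e_1, ..., e_s`, a size `x` and an accuracy `ε`, for all `r ≥ r0` and all large `X`,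
uniformly for all admissible `a < b ≤ X`, in ALL intervals `(Z, Z + Y]` inside `[0, 2 X]` of
length `Y ≥ X ^ θ` and for ALL disjoint windows `(u_i, v_i]`, `i = 1, ..., s`, with `v_i V ≤ x`:
the mean over `n` in `(Z, Z + Y]` of the product of the binomial coefficients `C(N_i, e_i)`, `N_i`
the number of the good integers in the window `(n + u_i, n + v_i]`, is the product of the `((v_i -
u_i) V) ^ e_i / e_i!`, up to `ε`.
-/

namespace Pool.Agent.Results.MP_1039f5_nt.MomentsUniform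

open Finset Filter

/-- `N` has at most `B` prime factors (with multiplicity), all of them larger than `z`. -/
def AlmostPrime (B : ℕ) (z : ℝ) (N : ℕ) : Prop :=
  N.primeFactorsList.length ≤ B ∧ ∀ p : ℕ, p.Prime → p ∣ N → z < (p : ℝ)

/-- `m` is good: `m`, `m + a` and `m + b` all have at most `r` prime factors, all larger than `X ^ (1 / r)`. -/
def Good (r X a b m : ℕ) : Prop :=
  AlmostPrime r ((X : ℝ) ^ (1 / (r : ℝ))) m ∧ AlmostPrime r ((X : ℝ) ^ (1 / (r : ℝ))) (m + a) ∧
    AlmostPrime r ((X : ℝ) ^ (1 / (r : ℝ))) (m + b)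

/-- The triple `m`, `m + a`, `m + b` is admissible: it has no fixed prime divisor. -/
def Admissible (a b : ℕ) : Prop :=
  ∀ p : ℕ, p.Prime → ∃ m : ℕ, ¬ p ∣ m ∧ ¬ p ∣ m + a ∧ ¬ p ∣ m + b

open Classical in
/-- The sieve density: the product of `1 - ρ(p) / p` over the primes `p ≤ X ^ (1 / r)`, where `ρ(p)` is
the number of the `t` mod `p` with `p ∣ t`, `p ∣ t + a` or `p ∣ t + b`. -/
noncomputable def V (r X a b : ℕ) : ℝ :=
  ∏ p ∈ (Finset.range (⌊(X : ℝ) ^ (1 / (r : ℝ))⌋₊ + 1)).filter Nat.Prime,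
    (1 - (((Finset.range p).filter (fun t : ℕ => p ∣ t ∨ p ∣ t + a ∨ p ∣ t + b)).card : ℝ) / p)

open Classical in
/-- The number of the good `m` in `(u, v]`. -/
noncomputable def N (r X a b u v : ℕ) : ℕ :=
  ((Finset.Ioc u v).filter (fun m => Good r X a b m)).card

open Pool.Agent.TH464.PO

open Classical in
/-- **All mixed binomial moments of the counts in several windows**, uniformly in the pattern and in all
intervals. -/
theorem result (θ : ℝ) (hθ : 0 < θ) (s : ℕ) (e : Fin s → ℕ) (x ε : ℝ) (hε : 0 < ε) :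
    ∃ r0 : ℕ, ∀ r : ℕ, r0 ≤ r → ∀ᶠ X : ℕ in atTop, ∀ a b : ℕ, 1 ≤ a → a < b → b ≤ X → Admissible a b →
      ∀ Z Y : ℕ, (X : ℝ) ^ θ ≤ Y → Z + Y ≤ 2 * X →
      ∀ u v : Fin s → ℕ, (∀ i, u i ≤ v i) → (∀ i, v i * V r X a b ≤ x) →
      (∀ i j, i ≠ j → v i ≤ u j ∨ v j ≤ u i) →
        |∑ n ∈ Finset.Ioc Z (Z + Y), ∏ i, (((N r X a b (n + u i) (n + v i)).choose (e i) : ℕ) : ℝ) -
          Y * ∏ i, ((((v i : ℝ) - u i) * V r X a b) ^ (e i) / (e i).factorial)| ≤ ε * Y := by
  obtain ⟨r0, h⟩ := sh_mom 3 (by norm_num) θ hθ e x ε hε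
  refine ⟨r0, fun r hr => ?_⟩
  filter_upwards [h r hr] with X hX a b ha hb hbX had
  exact hX (P3 a b) (P3_card a b ha hb) (P3_le a b X hb hbX) (P3_ad a b had)
    (Good r X a b) (V r X a b) (P3_ap a b r _) (P3_V a b _)

end Pool.Agent.Results.MP_1039f5_nt.MomentsUniform
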