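import Pool.Agent.TH899.UG.DN3

/-!
# Prime triples: three of any eight windows of shifts, at every scale

There is `C` such that for every `η > 0`, all sufficiently large `N`, every `H` with `C ≤ H ≤ N / C`
and ANY eight disjoint windows `[b_i, b_i + H)`, `b_1 < ... < b_8 ≤ N`, there are `i < j < k` such that
for at least `H ^ 2 / 5000` pairs `0 < d' < d` with `|d' - (b_k - b_j)| < H` and
`|d - (b_k - b_i)| < H` there are at least `N ^ (1 - η)` primes `p ≤ 2 N` with `p - d'` and `p - d`
prime.

Proof: more than a quarter of any number of classes of linear forms, uniformly in constant terms up to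
the size of the variable (`Pool.Agent.TH899.UG.Uni.exactL`), Erdos's box theorem and an average over
the translations of the classes.
-/

set_option autoImplicit false

namespace Pool.Agent.Results.MP_1039f5_nt.ThreeOfEightWindows

open Filter

/-- The number of the primes `p ≤ x` such that `p - d` and `p - d'` are prime. -/
noncomputable def pi3 (x : ℕ) (d' d : ℤ) : ℕ :=
  {p : ℕ | p ≤ x ∧ p.Prime ∧ (∃ q : ℕ, q.Prime ∧ (q : ℤ) = p - d) ∧
    ∃ q : ℕ, q.Prime ∧ (q : ℤ) = p - d'}.ncard

open Classical Finset in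
theorem result : ∃ C : ℕ, ∀ η : ℝ, 0 < η → ∀ᶠ N : ℕ in atTop, ∀ H : ℕ, C ≤ H → C * H ≤ N →
    ∀ b : Fin 8 → ℕ, (∀ i, b i ≤ N) → (∀ i j, i < j → b i + H ≤ b j) →
    ∃ i j k : Fin 8, i < j ∧ j < k ∧
      (H : ℝ) ^ 2 / 5000 ≤ ({z : ℤ × ℤ | 0 < z.1 ∧ z.1 < z.2 ∧ |z.1 - ((b k : ℤ) - b j)| < H ∧
        |z.2 - ((b k : ℤ) - b i)| < H ∧
        (N : ℝ) ^ (1 - η) ≤ (pi3 (2 * N) z.1 z.2 : ℝ)}.ncard : ℝ) := by
  obtain ⟨c, hc, hc1, HD⟩ := Pool.Agent.TH899.UG.DN.dens
  have htot : Nat.totient 210 = 48 := by decide +kernel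
  obtain ⟨C, hC⟩ := HD 8 2 (by norm_num) (by push_cast; linarith) 1 210 (by norm_num)
    (by
      intro p hp hp8
      interval_cases p <;> first | decide | exact absurd hp (by norm_num))
    (1 / 5000) (by norm_num) (by
      rw [htot]
      have : Nat.choose 8 3 = 56 := by decide
      rw [this]
      norm_num)
  refine ⟨C + 60, fun η hη => ?_⟩
  filter_upwards [hC η hη] with N hN
  intro H hH hHN b hb hdis
  have hCH : C * H ≤ N := (Nat.mul_le_mul_right _ (by omega)).trans hHN
  have h60 : 60 * H ≤ N := (Nat.mul_le_mul_right _ (by omega)).trans hHN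
  obtain ⟨S, hS, hG⟩ := hN H (by omega) hCH (fun _ => 1) (fun g => (b g : ℤ)) (fun _ => by norm_num)
    (fun _ => by norm_num)
    (fun _ p hp h => by
      exfalso
      have h1 : (p : ℤ) ≤ 1 := Int.le_of_dvd one_pos h
      have h2 := hp.two_le
      omega)
    (fun g => by
      have h1 := hb g
      rw [abs_of_nonneg (Nat.cast_nonneg _)]
      omega)
    (fun g y h1 _ => by
      have h3 : (0 : ℝ) ≤ (b g : ℝ) := Nat.cast_nonneg _
      have h4 : (0 : ℝ) ≤ N := Nat.cast_nonneg _
      push_cast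
      linarith)
  set i := S.orderEmbOfFin hS 0 with hi
  set j := S.orderEmbOfFin hS 1 with hj
  set k := S.orderEmbOfFin hS 2 with hk
  have hij : i < j := (S.orderEmbOfFin hS).strictMono (by decide)
  have hjk : j < k := (S.orderEmbOfFin hS).strictMono (by decide)
  have hiS : i ∈ S := S.orderEmbOfFin_mem hS 0
  have hjS : j ∈ S := S.orderEmbOfFin_mem hS 1
  have hkS : k ∈ S := S.orderEmbOfFin_mem hS 2
  have hSall : ∀ g ∈ S, g = i ∨ g = j ∨ g = k := by
    intro g hg
    have h1 : g ∈ Set.range (S.orderEmbOfFin hS) := by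
      rw [Finset.range_orderEmbOfFin]; exact hg
    obtain ⟨m, rfl⟩ := h1
    fin_cases m
    · exact Or.inl rfl
    · exact Or.inr (Or.inl rfl)
    · exact Or.inr (Or.inr rfl)
  refine ⟨i, j, k, hij, hjk, ?_⟩
  have hbij := hdis i j hij
  have hbjk := hdis j k hjk
  set Z : Set (ℤ × ℤ) := {z : ℤ × ℤ | 0 < z.1 ∧ z.1 < z.2 ∧ |z.1 - ((b k : ℤ) - b j)| < H ∧
        |z.2 - ((b k : ℤ) - b i)| < H ∧
        (N : ℝ) ^ (1 - η) ≤ (pi3 (2 * N) z.1 z.2 : ℝ)} with hZ
  have hZfin : Z.Finite := by
    refine ((Set.finite_Icc ((b k : ℤ) - b j - H) ((b k : ℤ) - b j + H)).prod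
      (Set.finite_Icc ((b k : ℤ) - b i - H) ((b k : ℤ) - b i + H))).subset ?_
    rintro z ⟨-, -, h1, h2, -⟩
    rw [abs_lt] at h1 h2
    exact ⟨⟨by linarith [h1.1], by linarith [h1.2]⟩, ⟨by linarith [h2.1], by linarith [h2.2]⟩⟩
  have hcard : (Pool.Agent.TH899.UG.DN.G N H η (fun _ => 1) (fun g => (b g : ℤ)) S).card ≤
      H * Z.ncard := by
    rw [Set.ncard_eq_toFinset_card Z hZfin]
    have h0 : H * hZfin.toFinset.card = ((Finset.range H) ×ˢ hZfin.toFinset).card := by
      rw [Finset.card_product, Finset.card_range]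
    rw [h0]
    refine Finset.card_le_card_of_injOn (fun e : Fin 8 → ℕ => (e i,
      (((b k : ℤ) + e k) - (b j + e j), ((b k : ℤ) + e k) - (b i + e i)))) ?_ ?_
    · intro e he
      obtain ⟨h1, h2⟩ := Finset.mem_filter.1 (Finset.mem_coe.1 he)
      rw [Fintype.mem_piFinset] at h1
      have hei : e i < H := by
        have := h1 i
        rw [if_pos hiS] at this
        exact Finset.mem_range.1 this
      have hej : e j < H := by
        have := h1 j
        rw [if_pos hjS] at this
        exact Finset.mem_range.1 this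
      have hek : e k < H := by
        have := h1 k
        rw [if_pos hkS] at this
        exact Finset.mem_range.1 this
      refine Finset.mem_coe.2 (Finset.mem_product.2 ⟨Finset.mem_range.2 hei, ?_⟩)
      rw [Set.Finite.mem_toFinset]
      refine ⟨?_, ?_, ?_, ?_, h2.trans ?_⟩
      · show 0 < ((b k : ℤ) + e k) - (b j + e j)
        omega
      · show ((b k : ℤ) + e k) - (b j + e j) < ((b k : ℤ) + e k) - (b i + e i)
        omega
      · show |((b k : ℤ) + e k) - (b j + e j) - ((b k : ℤ) - b j)| < H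
        rw [abs_lt]
        constructor <;> omega
      · show |((b k : ℤ) + e k) - (b i + e i) - ((b k : ℤ) - b i)| < H
        rw [abs_lt]
        constructor <;> omega
      · rw [Nat.cast_le]
        unfold Pool.Agent.TH899.UG.DN.cn pi3
        rw [← Set.ncard_coe_finset]
        have hfin : {p : ℕ | p ≤ 2 * N ∧ p.Prime ∧ (∃ q : ℕ, q.Prime ∧ (q : ℤ) = p -
            (((b k : ℤ) + e k) - (b i + e i))) ∧ ∃ q : ℕ, q.Prime ∧ (q : ℤ) = p -
            (((b k : ℤ) + e k) - (b j + e j))}.Finite :=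
          (Set.finite_Iic (2 * N)).subset fun p hp => hp.1
        refine Set.ncard_le_ncard_of_injOn (fun n : ℕ => n + (b k + e k)) ?_ ?_ hfin
        · intro n hn
          obtain ⟨h3, -, h5, h6⟩ := Finset.mem_filter.1 (Finset.mem_coe.1 hn)
          have hbk := hb k
          have hti : ∀ g, (1 * (n : ℤ) + ((b g : ℤ) + (e g : ℤ))).toNat = n + (b g + e g) := by
            intro g; omega
          have h7 := h6 k hkS
          have h8 := h6 i hiS
          have h9 := h6 j hjS
          simp only [hti] at h7 h8 h9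
          refine ⟨?_, h7, ⟨n + (b i + e i), h8, ?_⟩, ⟨n + (b j + e j), h9, ?_⟩⟩
          · show n + (b k + e k) ≤ 2 * N
            omega
          · push_cast; ring
          · push_cast; ring
        · intro n _ n' _ h
          have h' : n + (b k + e k) = n' + (b k + e k) := h
          omega
    · intro e he e' he' hee
      obtain ⟨h1, -⟩ := Finset.mem_filter.1 (Finset.mem_coe.1 he)
      obtain ⟨h1', -⟩ := Finset.mem_filter.1 (Finset.mem_coe.1 he')
      rw [Fintype.mem_piFinset] at h1 h1'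
      simp only [Prod.mk.injEq] at hee
      obtain ⟨e1, e2, e3⟩ := hee
      funext g
      by_cases hg : g ∈ S
      · rcases hSall g hg with h | h | h
        · rw [h]; exact e1
        · rw [h]; omega
        · rw [h]; omega
      · have h2 := h1 g
        have h3 := h1' g
        rw [if_neg hg, Finset.mem_singleton] at h2 h3
        rw [h2, h3]
  have hHpos : (0 : ℝ) < H := by
    have : 0 < H := by omega
    exact_mod_cast this
  have h1 : 1 / 5000 * (H : ℝ) ^ (2 + 1) ≤ (H : ℝ) * (Z.ncard : ℝ) :=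
    hG.trans (by exact_mod_cast hcard)
  have h2 : (H : ℝ) * ((H : ℝ) ^ 2 / 5000) ≤ (H : ℝ) * (Z.ncard : ℝ) := by
    calc (H : ℝ) * ((H : ℝ) ^ 2 / 5000) = 1 / 5000 * (H : ℝ) ^ (2 + 1) := by ring
      _ ≤ _ := h1
  exact le_of_mul_le_mul_left h2 hHpos

end Pool.Agent.Results.MP_1039f5_nt.ThreeOfEightWindows
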